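import Mathlib

/-!
# An admissible set of 14 points for four line directions

For the four directions with slopes `0`, `∞`, `1`, `-1` and `r = 2` we exhibit 14 points of the
plane such that every line in one of the four directions contains either none or exactly two of
the points.
-/

namespace Pool.Agent.Results.MP_17a11e_co.FourteenPoints

/-- A finite nonempty set `S` of points of the real plane is admissible for a set `L` of lines and
a natural number `r` if every line parallel to some line of `L` (the lines of `L` included) either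
misses `S` or contains exactly `r` points of `S`. -/
def Admissible (L : Set (AffineSubspace ℝ (ℝ × ℝ))) (r : ℕ) (S : Finset (ℝ × ℝ)) : Prop :=
  S.Nonempty ∧ ∀ l₀ ∈ L, ∀ l : AffineSubspace ℝ (ℝ × ℝ), l.Parallel l₀ →
    ((S : Set (ℝ × ℝ)) ∩ (l : Set (ℝ × ℝ)) = ∅ ∨
      ((S : Set (ℝ × ℝ)) ∩ (l : Set (ℝ × ℝ))).ncard = r)

/-- The four lines through the origin with slopes `0`, `∞` (vertical), `1` and `-1`. -/
def fourLines : Set (AffineSubspace ℝ (ℝ × ℝ)) :=
  {line[ℝ, ((0, 0) : ℝ × ℝ), (1, 0)], line[ℝ, ((0, 0) : ℝ × ℝ), (0, 1)],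
   line[ℝ, ((0, 0) : ℝ × ℝ), (1, 1)], line[ℝ, ((0, 0) : ℝ × ℝ), (1, -1)]}

/-- The fourteen points, with integer coordinates. -/
def T : Finset (ℤ × ℤ) :=
  {(0, 6), (0, 8), (1, 7), (1, 9), (6, 0), (6, 5), (9, 2), (9, 5), (10, 0), (10, 9),
   (12, 2), (12, 8), (13, 6), (13, 7)}

/-- The embedding of the integer lattice into the real plane. -/
def emb : ℤ × ℤ ↪ ℝ × ℝ where
  toFun t := ((t.1 : ℝ), (t.2 : ℝ))
  inj' := by
    intro a b h
    simp only [Prod.mk.injEq, Int.cast_inj] at h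
    exact Prod.ext h.1 h.2

/-- The fourteen points in the real plane. -/
def S : Finset (ℝ × ℝ) := T.map emb

lemma card_T : T.card = 14 := by decide

/-- A line through the origin with direction `(a, b)` and its parallels, in coordinates. -/
lemma mem_line_iff (a b : ℝ) (hab : a ≠ 0 ∨ b ≠ 0) (l : AffineSubspace ℝ (ℝ × ℝ))
    (h : l.Parallel line[ℝ, ((0, 0) : ℝ × ℝ), (a, b)]) :
    ∃ c : ℝ, ∀ p : ℝ × ℝ, p ∈ l ↔ b * p.1 - a * p.2 = c := by
  obtain ⟨w, hw⟩ := h.symm
  subst hw
  refine ⟨b * w.1 - a * w.2, fun p => ?_⟩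
  rw [AffineSubspace.mem_map]
  constructor
  · rintro ⟨q, hq, rfl⟩
    rw [mem_affineSpan_pair_iff_exists_lineMap_eq] at hq
    obtain ⟨r, rfl⟩ := hq
    simp [AffineMap.lineMap_apply]
    ring
  · intro hp
    refine ⟨p - w, ?_, by simp⟩
    rw [mem_affineSpan_pair_iff_exists_lineMap_eq]
    rcases hab with ha | hb
    · refine ⟨(p.1 - w.1) / a, ?_⟩
      ext
      · simp [AffineMap.lineMap_apply]
        field_simp
      · simp [AffineMap.lineMap_apply]
        field_simp
        linarith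
    · refine ⟨(p.2 - w.2) / b, ?_⟩
      ext
      · simp [AffineMap.lineMap_apply]
        field_simp
        linarith
      · simp [AffineMap.lineMap_apply]
        field_simp

/-- Counting lemma: if each nonempty fibre of the integer functional has two points. -/
lemma count (a b : ℤ) (hab : a ≠ 0 ∨ b ≠ 0)
    (hT : ∀ t₀ ∈ T, (T.filter (fun t => b * t.1 - a * t.2 = b * t₀.1 - a * t₀.2)).card = 2)
    (l : AffineSubspace ℝ (ℝ × ℝ))
    (h : l.Parallel line[ℝ, ((0, 0) : ℝ × ℝ), ((a : ℝ), (b : ℝ))]) :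
    ((S : Set (ℝ × ℝ)) ∩ (l : Set (ℝ × ℝ)) = ∅ ∨
      ((S : Set (ℝ × ℝ)) ∩ (l : Set (ℝ × ℝ))).ncard = 2) := by
  obtain ⟨c, hc⟩ := mem_line_iff (a : ℝ) (b : ℝ) (by exact_mod_cast hab) l h
  by_cases hne : ((S : Set (ℝ × ℝ)) ∩ (l : Set (ℝ × ℝ))) = ∅
  · exact Or.inl hne
  · right
    obtain ⟨p, hpS, hpl⟩ := Set.nonempty_iff_ne_empty.mpr hne
    rw [SetLike.mem_coe, hc] at hpl
    rw [Finset.mem_coe, S, Finset.mem_map] at hpS
    obtain ⟨t₀, ht₀, rfl⟩ := hpS
    have hset : ((S : Set (ℝ × ℝ)) ∩ (l : Set (ℝ × ℝ))) =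
        (((T.filter (fun t => b * t.1 - a * t.2 = b * t₀.1 - a * t₀.2)).map emb :
          Finset (ℝ × ℝ)) : Set (ℝ × ℝ)) := by
      ext x
      rw [Set.mem_inter_iff, SetLike.mem_coe, SetLike.mem_coe, SetLike.mem_coe, hc, S,
        Finset.mem_map, Finset.mem_map]
      constructor
      · rintro ⟨⟨t, ht, rfl⟩, hx⟩
        refine ⟨t, ?_, rfl⟩
        rw [Finset.mem_filter]
        refine ⟨ht, ?_⟩
        have : (b : ℝ) * (t.1 : ℝ) - (a : ℝ) * (t.2 : ℝ) =
            (b : ℝ) * (t₀.1 : ℝ) - (a : ℝ) * (t₀.2 : ℝ) := hx.trans hpl.symm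
        exact_mod_cast this
      · rintro ⟨t, ht, rfl⟩
        rw [Finset.mem_filter] at ht
        refine ⟨⟨t, ht.1, rfl⟩, ?_⟩
        have : (b : ℝ) * (t.1 : ℝ) - (a : ℝ) * (t.2 : ℝ) =
            (b : ℝ) * (t₀.1 : ℝ) - (a : ℝ) * (t₀.2 : ℝ) := by exact_mod_cast ht.2
        exact this.trans hpl
    rw [hset, Set.ncard_coe_finset, Finset.card_map]
    exact hT t₀ ht₀

theorem result : ∃ S : Finset (ℝ × ℝ), S.card = 14 ∧ Admissible fourLines 2 S := by
  refine ⟨S, ?_, ?_, ?_⟩
  · rw [S, Finset.card_map]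
    exact card_T
  · rw [S, Finset.map_nonempty]
    exact ⟨(0, 6), by decide⟩
  · intro l₀ hl₀ l hl
    simp only [fourLines, Set.mem_insert_iff, Set.mem_singleton_iff] at hl₀
    rcases hl₀ with rfl | rfl | rfl | rfl
    · exact count 1 0 (by decide) (by decide) l (by simpa using hl)
    · exact count 0 1 (by decide) (by decide) l (by simpa using hl)
    · exact count 1 1 (by decide) (by decide) l (by simpa using hl)
    · exact count 1 (-1) (by decide) (by decide) l (by simpa using hl)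

end Pool.Agent.Results.MP_17a11e_co.FourteenPoints
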